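import Pool.Agent.R526.LPB.Main

set_option autoImplicit false

/-! # Exactly equidistributed measures without long sifted gaps: final form -/

namespace Pool.Agent.R526.LPB

open Finset Filter Pool.Agent.Y829

open scoped Classical

/-- indicator functions of residue classes have level `Q` -/
theorem ind_mem (N Q d b : ℕ) (hd : d ∈ Icc 1 Q) :
    (fun i : Fin N => if (i : ℕ) ≡ b [MOD d] then (1 : ℝ) else 0) ∈ LL N Q := by
  refine ⟨fun n => if n ≡ b [MOD d] then (1 : ℝ) else 0,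
    ⟨fun e n => if e = d then (if n ≡ b [MOD d] then (1 : ℝ) else 0) else 0, ?_, ?_⟩, fun i => rfl⟩
  · intro e n
    by_cases he : e = d
    · subst he
      simp only [if_true]
      have : (n + e ≡ b [MOD e]) ↔ (n ≡ b [MOD e]) := by
        unfold Nat.ModEq
        rw [Nat.add_mod_right]
      simp only [this]
    · simp only [if_neg he]
  · intro n
    rw [sum_ite_eq' (Icc 1 Q) d, if_pos hd]

theorem count_class (N d b : ℕ) (hd : 0 < d) (hdN : d ∣ N) :
    (((range N).filter (fun n => n ≡ b [MOD d])).card : ℝ) = N / d := by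
  have h1 := Nat.count_modEq_card N hd b
  rw [Nat.count_eq_card_filter_range] at h1
  rw [Nat.mod_eq_zero_of_dvd hdN] at h1
  simp only [Nat.not_lt_zero, if_false, add_zero] at h1
  rw [h1, Nat.cast_div hdN (by exact_mod_cast hd.ne')]

/-- for each fixed exponent `a < 1/2` -/
theorem core (a : ℝ) (ha : 0 < a) (ha' : a < 1 / 2) : ∃ (c : ℝ) (U1 : ℕ), 0 < c ∧
    ∀ (U Q M N : ℕ) (s : ℝ), U1 ≤ U → 1 ≤ Q → 0 ≤ s → 5 * Real.log Q + s + 2 ≤ 3 * (U : ℝ) ^ a →
      (∀ p : ℕ, p.Prime → p ∣ M → Real.log p ≤ (U : ℝ) ^ a) → 0 < N → M ∣ N →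
      (∀ d ∈ Icc 1 Q, d ∣ N) →
      ∃ f : ℕ → ℝ, (∀ n, 0 ≤ f n ∧ f n ≤ 2) ∧ (∀ n, f (n + N) = f n) ∧
        (∀ n, f n ≠ 0 → c * U * ((M.totient : ℝ) / M) ≤
          (((Icc 1 U).filter (fun h => (n + h).Coprime M)).card : ℝ)) ∧
        (∀ d ∈ Icc 1 Q, ∀ b : ℕ, ∑ n ∈ (range N).filter (fun n => n ≡ b [MOD d]), f n = N / d) ∧
        ∑ n ∈ range N, |f n - 1| ≤ Real.exp (-s) * N := by
  obtain ⟨c, U1, hc, hU12, htail⟩ := tail a ha ha'
  refine ⟨c, U1, hc, ?_⟩
  intro U Q M N s hU hQ hs hlog hMp hN hMN hdN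
  have hM : 0 < M := Nat.pos_of_dvd_of_pos hMN hN
  have hNr : (0 : ℝ) < N := by exact_mod_cast hN
  have hQr : (1 : ℝ) ≤ Q := by exact_mod_cast hQ
  set P := M.primeFactors with hP
  have hPp : ∀ p ∈ P, p.Prime := fun p hp => (Nat.mem_primeFactors.1 hp).1
  have hPR : ∀ p ∈ P, p.Prime ∧ Real.log p ≤ (U : ℝ) ^ a := fun p hp =>
    ⟨hPp p hp, hMp p (hPp p hp) (Nat.mem_primeFactors.1 hp).2.1⟩
  have hPN : (∏ p ∈ P, p) ∣ N := (Nat.prod_primeFactors_dvd M).trans hMN
  have hSf : ∀ n, (((Icc 1 U).filter (fun h => (n + h).Coprime M)).card : ℝ) = Sf P n U := by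
    intro n
    unfold Sf
    refine congrArg Nat.cast (congrArg card ?_)
    ext h
    rw [mem_filter, mem_HS, mem_Icc, cop_iff hM]
  have hSfper : ∀ (T n : ℕ), (∀ p ∈ P, p ∣ T) → Sf P (n + T) U = Sf P n U := by
    intro T n hR
    unfold Sf
    have := HS_add P n 1 U T hR
    rw [mul_one] at this
    rw [this]
  have hSfmod : ∀ n, Sf P (n % N) U = Sf P n U := by
    intro n
    have h1 := Nat.mod_add_div n N
    have h2 : Sf P (n % N + N * (n / N)) U = Sf P (n % N) U := by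
      apply hSfper
      intro p hp
      exact ((dvd_prod_of_mem (fun x : ℕ => x) hp).trans hPN).trans (Dvd.intro _ rfl)
    rw [h1] at h2
    exact h2.symm
  -- the bad residues
  have hbad : (((range N).filter (fun n => Sf P n U < c * (U * V P))).card : ℝ) *
      Real.exp (3 * (U : ℝ) ^ a) ≤ N := by
    have ht := htail U P hU hPR
    obtain ⟨k1, hk1⟩ := hPN
    set D1 := ∏ p ∈ P, p with hD1
    have h1 : (((range N).filter (fun n => Sf P n U < c * (U * V P))).card : ℝ) =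
        k1 * (((range D1).filter (fun n => Sf P n U < c * (U * V P))).card : ℝ) := by
      rw [card_filter, card_filter]
      push_cast
      rw [hk1, per_sum (G := fun n => if Sf P n U < c * (U * V P) then (1 : ℝ) else 0) (T := D1)]
      intro n
      show (if Sf P (n + D1) U < c * (U * V P) then (1 : ℝ) else 0) =
        if Sf P n U < c * (U * V P) then (1 : ℝ) else 0
      rw [hSfper D1 n fun p hp => dvd_prod_of_mem (fun x : ℕ => x) hp]
    rw [h1, mul_assoc, hk1]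
    push_cast
    rw [mul_comm (D1 : ℝ)]
    exact mul_le_mul_of_nonneg_left (by exact_mod_cast ht) (Nat.cast_nonneg _)
  set B : Finset (Fin N) := univ.filter (fun i : Fin N => Sf P i U < c * (U * V P)) with hB
  have hBcard : (B.card : ℝ) = (((range N).filter (fun n => Sf P n U < c * (U * V P))).card : ℝ) := by
    rw [hB, card_filter, card_filter]
    push_cast
    exact Fin.sum_univ_eq_sum_range (fun n => if Sf P n U < c * (U * V P) then (1 : ℝ) else 0) N
  set t : ℝ := Real.exp (-(3 * (U : ℝ) ^ a)) * (Q : ℝ) ^ 4 with ht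
  have hBt : (B.card : ℝ) * (Q : ℝ) ^ 4 ≤ t * N := by
    have h1 : (B.card : ℝ) ≤ Real.exp (-(3 * (U : ℝ) ^ a)) * N := by
      rw [hBcard, Real.exp_neg, inv_mul_eq_div, le_div_iff₀ (Real.exp_pos _)]
      exact hbad
    calc (B.card : ℝ) * (Q : ℝ) ^ 4 ≤ Real.exp (-(3 * (U : ℝ) ^ a)) * N * (Q : ℝ) ^ 4 := by gcongr
      _ = t * N := by rw [ht]; ring
  have hQexp : (Q : ℝ) ^ 4 = Real.exp (4 * Real.log Q) := by
    rw [show (4 : ℝ) * Real.log Q = ((4 : ℕ) : ℝ) * Real.log Q by norm_num, Real.exp_nat_mul,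
      Real.exp_log (by linarith)]
  have hlQ : 0 ≤ Real.log Q := Real.log_nonneg hQr
  have ht3 : 3 * t ≤ Real.exp (-s) := by
    rw [ht, hQexp, ← Real.exp_add]
    have h1 : (3 : ℝ) ≤ Real.exp 2 := by
      have := Real.add_one_le_exp (2 : ℝ)
      linarith
    calc 3 * Real.exp (-(3 * (U : ℝ) ^ a) + 4 * Real.log Q) ≤
          Real.exp 2 * Real.exp (-(3 * (U : ℝ) ^ a) + 4 * Real.log Q) := by gcongr
      _ = Real.exp (2 + (-(3 * (U : ℝ) ^ a) + 4 * Real.log Q)) := by rw [← Real.exp_add]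
      _ ≤ Real.exp (-s) := by
          apply Real.exp_le_exp.2
          linarith
  have hes : Real.exp (-s) ≤ 1 := by
    rw [Real.exp_le_one_iff]
    linarith
  have ht0 : 0 ≤ t := by rw [ht]; positivity
  have ht12 : t ≤ 1 / 2 := by linarith
  obtain ⟨v, hv1, hv2⟩ := exists_rho N Q hN hQ hdN B t ht12 hBt
  have hv3 : ∀ i, |v i| ≤ 1 := fun i => (hv1 i).trans (by linarith)
  set f : ℕ → ℝ := fun n => if Sf P n U < c * (U * V P) then 0 else
    1 + v ⟨n % N, Nat.mod_lt _ hN⟩ with hf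
  have hfB : ∀ i : Fin N, i ∈ B → f i = 0 := by
    intro i hi
    rw [hB, mem_filter] at hi
    simp only [hf]
    rw [if_pos hi.2]
  have hfB' : ∀ i : Fin N, i ∉ B → f i = 1 + v i := by
    intro i hi
    have hi2 : ¬ Sf P i U < c * (U * V P) := by
      intro h
      exact hi (by rw [hB, mem_filter]; exact ⟨mem_univ _, h⟩)
    simp only [hf]
    rw [if_neg hi2]
    congr 2
    ext
    exact Nat.mod_eq_of_lt i.2
  refine ⟨f, ?_, ?_, ?_, ?_, ?_⟩
  · intro n
    simp only [hf]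
    split_ifs
    · exact ⟨le_rfl, by norm_num⟩
    · have := abs_le.1 (hv3 ⟨n % N, Nat.mod_lt _ hN⟩)
      constructor <;> linarith [this.1, this.2]
  · intro n
    simp only [hf]
    have h1 : Sf P (n + N) U = Sf P n U := by
      rw [← hSfmod (n + N), ← hSfmod n, Nat.add_mod_right]
    rw [h1]
    simp only [Nat.add_mod_right]
  · intro n hn
    rw [hSf, ← V_tot hM]
    simp only [hf] at hn
    split_ifs at hn with h1
    · exact absurd rfl hn
    · rw [not_lt] at h1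
      rw [mul_assoc]
      exact h1
  · intro d hd b
    have hdI := hd
    rw [mem_Icc] at hd
    have h1 := hv2 _ (ind_mem N Q d b hdI)
    have h2 : ∑ n ∈ (range N).filter (fun n => n ≡ b [MOD d]), f n =
        ∑ i : Fin N, f i * (if (i : ℕ) ≡ b [MOD d] then (1 : ℝ) else 0) := by
      rw [Fin.sum_univ_eq_sum_range (fun n => f n * (if n ≡ b [MOD d] then (1 : ℝ) else 0)) N, sum_filter]
      apply sum_congr rfl
      intro n _
      split_ifs <;> simp
    have h3 : ∑ i : Fin N, f i * (if (i : ℕ) ≡ b [MOD d] then (1 : ℝ) else 0) =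
        ∑ i ∈ Bᶜ, (1 + v i) * (if (i : ℕ) ≡ b [MOD d] then (1 : ℝ) else 0) := by
      rw [← sum_add_sum_compl B]
      have h4 : ∑ i ∈ B, f i * (if (i : ℕ) ≡ b [MOD d] then (1 : ℝ) else 0) = 0 := by
        apply sum_eq_zero
        intro i hi
        rw [hfB i hi, zero_mul]
      rw [h4, zero_add]
      apply sum_congr rfl
      intro i hi
      rw [mem_compl] at hi
      rw [hfB' i hi]
    rw [h2, h3, h1, Fin.sum_univ_eq_sum_range (fun n => if n ≡ b [MOD d] then (1 : ℝ) else 0) N,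
      ← count_class N d b (by omega) (hdN d hdI), card_filter]
    push_cast
    rfl
  · rw [← Fin.sum_univ_eq_sum_range (fun n => |f n - 1|) N, ← sum_add_sum_compl B]
    have h1 : ∑ i ∈ B, |f i - 1| = B.card := by
      rw [card_eq_sum_ones]
      push_cast
      apply sum_congr rfl
      intro i hi
      rw [hfB i hi]
      norm_num
    have h2 : ∑ i ∈ Bᶜ, |f i - 1| ≤ N * (2 * t) := by
      calc ∑ i ∈ Bᶜ, |f i - 1| ≤ ∑ i ∈ Bᶜ, 2 * t := by
            apply sum_le_sum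
            intro i hi
            rw [mem_compl] at hi
            rw [hfB' i hi]
            have := hv1 i
            rwa [add_sub_cancel_left]
        _ = (Bᶜ.card : ℝ) * (2 * t) := by rw [sum_const, nsmul_eq_mul]
        _ ≤ N * (2 * t) := by
            apply mul_le_mul_of_nonneg_right _ (by linarith)
            have : Bᶜ.card ≤ N := by
              have := card_le_univ Bᶜ
              rwa [Fintype.card_fin] at this
            exact_mod_cast this
    have h3 : (B.card : ℝ) ≤ t * N := by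
      refine le_trans ?_ hBt
      have : (1 : ℝ) ≤ (Q : ℝ) ^ 4 := one_le_pow₀ hQr
      have hB0 : (0 : ℝ) ≤ B.card := Nat.cast_nonneg _
      nlinarith
    rw [h1]
    calc (B.card : ℝ) + ∑ i ∈ Bᶜ, |f i - 1| ≤ t * N + N * (2 * t) := add_le_add h3 h2
      _ = 3 * t * N := by ring
      _ ≤ Real.exp (-s) * N := mul_le_mul_of_nonneg_right ht3 hNr.le

/-- final form -/
theorem lpb (ε : ℝ) (hε : 0 < ε) : ∃ c : ℝ, 0 < c ∧ ∀ A : ℝ, 0 < A → ∃ X₀ : ℝ, ∀ X : ℝ, X₀ ≤ X →
    ∀ U M N : ℕ, (Real.log X) ^ (2 + ε) ≤ U → (∀ p : ℕ, p.Prime → p ∣ M → (p : ℝ) ≤ X ^ A) →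
      0 < N → M ∣ N → (∀ d : ℕ, 1 ≤ d → (d : ℝ) ≤ X ^ A → d ∣ N) →
      ∃ f : ℕ → ℝ, (∀ n, 0 ≤ f n ∧ f n ≤ 2) ∧ (∀ n, f (n + N) = f n) ∧
        (∀ n, f n ≠ 0 → c * U * ((M.totient : ℝ) / M) ≤
          (((Icc 1 U).filter (fun h => (n + h).Coprime M)).card : ℝ)) ∧
        (∀ d : ℕ, 1 ≤ d → (d : ℝ) ≤ X ^ A → ∀ b : ℕ,
          ∑ n ∈ (range N).filter (fun n => n ≡ b [MOD d]), f n = N / d) ∧
        ∑ n ∈ range N, |f n - 1| ≤ N / X ^ A := by
  set a : ℝ := (1 / (2 + ε) + 1 / 2) / 2 with ha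
  have h2ε : (0 : ℝ) < 2 + ε := by linarith
  have hinv : 1 / (2 + ε) < 1 / 2 := by
    rw [div_lt_div_iff₀ h2ε (by norm_num)]
    linarith
  have ha0 : 0 < a := by
    have : 0 < 1 / (2 + ε) := by positivity
    linarith
  have ha1 : a < 1 / 2 := by linarith
  have hae : 1 < a * (2 + ε) := by
    have h1 : 1 / (2 + ε) < a := by linarith
    rw [div_lt_iff₀ h2ε] at h1
    exact h1
  obtain ⟨c, U1, hc, hcore⟩ := core a ha0 ha1
  refine ⟨c, hc, fun A hA => ?_⟩
  -- largeness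
  have ht : Tendsto (fun L : ℝ => L ^ (a * (2 + ε) - 1)) atTop atTop := tendsto_rpow_atTop (by linarith)
  have e1 := ht.eventually_ge_atTop (2 * A + 1)
  have e2 : ∀ᶠ L : ℝ in atTop, (U1 : ℝ) ≤ L ^ (2 + ε) := (tendsto_rpow_atTop h2ε).eventually_ge_atTop _
  have e3 := Real.tendsto_log_atTop.eventually ((e1.and e2).and (eventually_ge_atTop (2 : ℝ)))
  obtain ⟨X₀, hX₀⟩ := eventually_atTop.1 (e3.and (eventually_ge_atTop (1 : ℝ)))
  refine ⟨X₀, fun X hX U M N hU hMp hN hMN hdN => ?_⟩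
  obtain ⟨⟨⟨h1, h2⟩, h3⟩, h4⟩ := hX₀ X hX
  set L := Real.log X with hL
  have hL0 : 0 < L := by linarith
  have hX0 : 0 < X := by linarith
  have hXA1 : 1 ≤ X ^ A := Real.one_le_rpow h4 hA.le
  have hUa : (2 * A + 1) * L ≤ (U : ℝ) ^ a := by
    calc (2 * A + 1) * L ≤ L ^ (a * (2 + ε) - 1) * L := by gcongr
      _ = L ^ ((2 + ε) * a) := by
          rw [← Real.rpow_add_one hL0.ne']
          congr 1
          ring
      _ = (L ^ (2 + ε)) ^ a := Real.rpow_mul hL0.le _ _
      _ ≤ (U : ℝ) ^ a := Real.rpow_le_rpow (by positivity) hU ha0.le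
  set Q := ⌊X ^ A⌋₊ with hQ
  have hQ1 : 1 ≤ Q := Nat.le_floor (by simpa using hXA1)
  have hQle : (Q : ℝ) ≤ X ^ A := Nat.floor_le (by positivity)
  have hlQ : Real.log Q ≤ A * L := by
    have : Real.log Q ≤ Real.log (X ^ A) := Real.log_le_log (by exact_mod_cast hQ1) hQle
    rwa [Real.log_rpow hX0] at this
  have hAL : 0 < A * L := by positivity
  obtain ⟨f, f1, f2, f3, f4, f5⟩ := hcore U Q M N (A * L) (by exact_mod_cast h2.trans hU) hQ1 hAL.le
    (by nlinarith) (by
      intro p hp hpM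
      have h5 : Real.log p ≤ Real.log (X ^ A) :=
        Real.log_le_log (by exact_mod_cast hp.pos) (hMp p hp hpM)
      rw [Real.log_rpow hX0] at h5
      nlinarith) hN hMN (by
      intro d hd
      rw [mem_Icc] at hd
      refine hdN d hd.1 (le_trans ?_ hQle)
      exact_mod_cast hd.2)
  refine ⟨f, f1, f2, f3, ?_, ?_⟩
  · intro d hd1 hd2 b
    exact f4 d (mem_Icc.2 ⟨hd1, Nat.le_floor hd2⟩) b
  · refine f5.trans (le_of_eq ?_)
    have : X ^ A = Real.exp (A * L) := by
      rw [Real.rpow_def_of_pos hX0, hL, mul_comm]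
    rw [this, Real.exp_neg]
    field_simp

end Pool.Agent.R526.LPB
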