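import Pool.Agent.Y829.BT6

set_option autoImplicit false

/-! # Exactly equidistributed measures on the integers without long sifted gaps -/

namespace Pool.Agent.R526.LPB

open Finset Pool.Agent.Y829

open scoped Classical

/-- the square of a weight of level `Q` has level `Q²` -/
theorem lev_sq {Q : ℕ} {w : ℕ → ℝ} (h : Lev Q w) : Lev (Q ^ 2) (fun n => w n ^ 2) := by
  obtain ⟨f, hf, hw⟩ := h
  refine ⟨fun e n => ∑ d ∈ Icc 1 Q, ∑ d' ∈ Icc 1 Q, if Nat.lcm d d' = e then f d n * f d' n else 0,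
    ?_, ?_⟩
  · intro e n
    apply sum_congr rfl
    intro d hd
    apply sum_congr rfl
    intro d' hd'
    split_ifs with hl
    · obtain ⟨k1, hk1⟩ := hl ▸ Nat.dvd_lcm_left d d'
      obtain ⟨k2, hk2⟩ := hl ▸ Nat.dvd_lcm_right d d'
      have e1 : f d (n + e) = f d n := by
        rw [hk1]; exact per_mul (hf d) n k1
      have e2 : f d' (n + e) = f d' n := by
        rw [hk2]; exact per_mul (hf d') n k2
      rw [e1, e2]
    · rfl
  · intro n
    show w n ^ 2 = ∑ e ∈ Icc 1 (Q ^ 2), ∑ d ∈ Icc 1 Q, ∑ d' ∈ Icc 1 Q,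
      if Nat.lcm d d' = e then f d n * f d' n else 0
    rw [hw, sq, sum_mul_sum, sum_comm (s := Icc 1 (Q ^ 2))]
    apply sum_congr rfl
    intro d hd
    rw [sum_comm]
    apply sum_congr rfl
    intro d' hd'
    rw [mem_Icc] at hd hd'
    have hl : Nat.lcm d d' ∈ Icc 1 (Q ^ 2) := by
      rw [mem_Icc]
      constructor
      · exact Nat.lcm_pos (by omega) (by omega)
      · refine (Nat.le_of_dvd (Nat.mul_pos (by omega) (by omega)) (Nat.lcm_dvd_mul d d')).trans ?_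
        rw [sq]
        exact Nat.mul_le_mul hd.2 hd'.2
    rw [sum_ite_eq, if_pos hl]

/-- sup norm of a function of level `Q` -/
theorem sup_sq (N Q : ℕ) (hN : 0 < N) (hQ : 1 ≤ Q) (hd : ∀ d ∈ Icc 1 Q, d ∣ N) (w : ℕ → ℝ)
    (hw : Lev Q w) (n : ℕ) : N * w n ^ 2 ≤ (Q : ℝ) ^ 4 * ∑ m ∈ range N, w m ^ 2 := by
  have hper : ∀ n, w (n + N) = w n := by
    intro n
    have h1 := hw.mod hd (n + N)
    have h2 := hw.mod hd n
    rw [Nat.add_mod_right] at h1
    rw [← h1, h2]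
  set F := (Q ^ 2).factorial with hF
  have hF0 : 0 < F := Nat.factorial_pos _
  have hA : 0 < N * F := Nat.mul_pos hN hF0
  have hd2 : ∀ d ∈ Icc 1 (Q ^ 2), d ∣ N * F := by
    intro d hd
    rw [mem_Icc] at hd
    exact (Nat.dvd_factorial (by omega) hd.2).mul_left N
  have h := supb (N * F) (Q ^ 2) hA hd2 (fun n => w n ^ 2) (fun n => sq_nonneg _) (lev_sq hw) n
  have hs : ∑ m ∈ range (N * F), w m ^ 2 = F * ∑ m ∈ range N, w m ^ 2 :=
    per_sum (G := fun m => w m ^ 2) (fun n => by rw [hper]) F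
  rw [hs] at h
  push_cast at h
  have hF0r : (0 : ℝ) < F := by exact_mod_cast hF0
  have h2 : (F : ℝ) * (N * w n ^ 2) ≤ F * ((Q : ℝ) ^ 4 * ∑ m ∈ range N, w m ^ 2) := by
    calc (F : ℝ) * (N * w n ^ 2) = N * F * w n ^ 2 := by ring
      _ ≤ ((Q : ℝ) ^ 2) ^ 2 * (F * ∑ m ∈ range N, w m ^ 2) := h
      _ = _ := by ring
  exact le_of_mul_le_mul_left h2 hF0r

/-- the restrictions to `{0, ..., N - 1}` of the functions of level `Q` -/
def LL (N Q : ℕ) : Submodule ℝ (Fin N → ℝ) where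
  carrier := {v | ∃ w : ℕ → ℝ, Lev Q w ∧ ∀ i : Fin N, v i = w i}
  add_mem' := by
    rintro a b ⟨w, ⟨f, hf, hw⟩, ha⟩ ⟨w', ⟨f', hf', hw'⟩, hb⟩
    refine ⟨fun n => w n + w' n, ⟨fun d n => f d n + f' d n, ?_, ?_⟩, ?_⟩
    · intro d n
      simp only
      rw [hf, hf']
    · intro n
      simp only
      rw [hw, hw', sum_add_distrib]
    · intro i
      rw [Pi.add_apply, ha, hb]
  zero_mem' := ⟨fun _ => 0, ⟨fun _ _ => 0, fun _ _ => rfl, fun _ => by simp⟩, fun _ => rfl⟩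
  smul_mem' := by
    rintro c a ⟨w, ⟨f, hf, hw⟩, ha⟩
    refine ⟨fun n => c * w n, ⟨fun d n => c * f d n, ?_, ?_⟩, ?_⟩
    · intro d n
      simp only
      rw [hf]
    · intro n
      simp only
      rw [hw, mul_sum]
    · intro i
      rw [Pi.smul_apply, smul_eq_mul, ha]

theorem sup_LL (N Q : ℕ) (hN : 0 < N) (hQ : 1 ≤ Q) (hd : ∀ d ∈ Icc 1 Q, d ∣ N) (v : Fin N → ℝ)
    (hv : v ∈ LL N Q) (i : Fin N) : N * v i ^ 2 ≤ (Q : ℝ) ^ 4 * ∑ j, v j ^ 2 := by
  obtain ⟨w, hw, hvw⟩ := hv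
  have h := sup_sq N Q hN hQ hd w hw i
  rw [hvw i]
  refine h.trans (le_of_eq ?_)
  congr 1
  rw [← Fin.sum_univ_eq_sum_range (fun m => w m ^ 2) N]
  exact sum_congr rfl fun j _ => by rw [hvw j]

/-- **The dual statement.** If the set `B` is small, some function supported outside `B`, nearly
equal to `1`, has the same integrals against functions of level `Q` as the constant `1`. -/
theorem exists_rho (N Q : ℕ) (hN : 0 < N) (hQ : 1 ≤ Q) (hd : ∀ d ∈ Icc 1 Q, d ∣ N)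
    (B : Finset (Fin N)) (t : ℝ) (ht : t ≤ 1 / 2) (hB : (B.card : ℝ) * (Q : ℝ) ^ 4 ≤ t * N) :
    ∃ v : Fin N → ℝ, (∀ i, |v i| ≤ 2 * t) ∧
      ∀ g ∈ LL N Q, ∑ i ∈ Bᶜ, (1 + v i) * g i = ∑ i, g i := by
  have hNr : (0 : ℝ) < N := by exact_mod_cast hN
  have hQr : (1 : ℝ) ≤ Q := by exact_mod_cast hQ
  have ht0 : 0 ≤ t := by
    have h1 : 0 ≤ (B.card : ℝ) * (Q : ℝ) ^ 4 := by positivity
    by_contra hcon
    rw [not_le] at hcon
    have := mul_neg_of_neg_of_pos hcon hNr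
    linarith
  have hne : Nonempty (Fin N) := ⟨⟨0, hN⟩⟩
  -- mass on `B`
  have hmass : ∀ v ∈ LL N Q, ∑ i ∈ B, v i ^ 2 ≤ t * ∑ i, v i ^ 2 := by
    intro v hv
    have h1 : ∀ i ∈ B, v i ^ 2 ≤ (Q : ℝ) ^ 4 * (∑ j, v j ^ 2) / N := by
      intro i _
      rw [le_div_iff₀ hNr, mul_comm]
      exact sup_LL N Q hN hQ hd v hv i
    refine (sum_le_sum h1).trans ?_
    rw [sum_const, nsmul_eq_mul, ← mul_div_assoc, div_le_iff₀ hNr]
    have h2 : 0 ≤ ∑ j, v j ^ 2 := sum_nonneg fun _ _ => sq_nonneg _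
    have h3 := mul_le_mul_of_nonneg_right hB h2
    linarith
  -- the bilinear form
  let Φ : LinearMap.BilinForm ℝ (LL N Q) := LinearMap.mk₂ ℝ
    (fun x y => ∑ i ∈ Bᶜ, x.1 i * y.1 i)
    (by
      intro x x' y
      rw [← sum_add_distrib]
      exact sum_congr rfl fun i _ => by simp [add_mul])
    (by
      intro c x y
      rw [smul_eq_mul, mul_sum]
      exact sum_congr rfl fun i _ => by simp [mul_assoc])
    (by
      intro x y y'
      rw [← sum_add_distrib]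
      exact sum_congr rfl fun i _ => by simp [mul_add])
    (by
      intro c x y
      rw [smul_eq_mul, mul_sum]
      exact sum_congr rfl fun i _ => by simp; ring)
  have hΦ : ∀ x y : LL N Q, Φ x y = ∑ i ∈ Bᶜ, x.1 i * y.1 i := fun x y => rfl
  have hpos : ∀ x : LL N Q, Φ x x = 0 → x = 0 := by
    intro x hx
    rw [hΦ] at hx
    have h1 : ∑ i ∈ Bᶜ, x.1 i ^ 2 = 0 := by
      rw [← hx]
      exact sum_congr rfl fun i _ => by ring
    have h2 := hmass x.1 x.2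
    have h3 : ∑ i ∈ B, x.1 i ^ 2 + ∑ i ∈ Bᶜ, x.1 i ^ 2 = ∑ i, x.1 i ^ 2 := sum_add_sum_compl B _
    have h4 : 0 ≤ ∑ i, x.1 i ^ 2 := sum_nonneg fun _ _ => sq_nonneg _
    have h5 : ∑ i, x.1 i ^ 2 = 0 := by nlinarith
    ext i
    have h6 := (sum_eq_zero_iff_of_nonneg (fun i _ => sq_nonneg (x.1 i))).1 h5 i (mem_univ i)
    have h7 : x.1 i = 0 := by
      exact pow_eq_zero_iff (two_ne_zero) |>.1 h6
    rw [h7]
    rfl
  have hinj : Function.Injective (Φ : LL N Q →ₗ[ℝ] Module.Dual ℝ (LL N Q)) := by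
    rw [← LinearMap.ker_eq_bot, LinearMap.ker_eq_bot']
    intro x hx
    apply hpos
    rw [hx]
    rfl
  have hsurj : Function.Surjective (Φ : LL N Q →ₗ[ℝ] Module.Dual ℝ (LL N Q)) := by
    refine (LinearMap.injective_iff_surjective_of_finrank_eq_finrank ?_).1 hinj
    exact (Subspace.dual_finrank_eq (K := ℝ) (V := LL N Q)).symm
  let ℓ : Module.Dual ℝ (LL N Q) :=
    { toFun := fun y => ∑ i ∈ B, y.1 i
      map_add' := by
        intro x y
        rw [← sum_add_distrib]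
        exact sum_congr rfl fun i _ => rfl
      map_smul' := by
        intro c x
        rw [RingHom.id_apply, smul_eq_mul, mul_sum]
        exact sum_congr rfl fun i _ => rfl }
  obtain ⟨ρ, hρ⟩ := hsurj ℓ
  have hρg : ∀ y : LL N Q, ∑ i ∈ Bᶜ, ρ.1 i * y.1 i = ∑ i ∈ B, y.1 i := by
    intro y
    have h1 : Φ ρ y = ℓ y := by rw [hρ]
    exact h1
  refine ⟨ρ.1, ?_, ?_⟩
  · -- the bound
    obtain ⟨i₀, -, hi₀⟩ := exists_max_image univ (fun i => |ρ.1 i|) univ_nonempty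
    set m := |ρ.1 i₀| with hm
    have hm0 : 0 ≤ m := abs_nonneg _
    have h1 : ∑ i ∈ Bᶜ, ρ.1 i ^ 2 ≤ B.card * m := by
      have h2 := hρg ρ
      have h3 : ∑ i ∈ Bᶜ, ρ.1 i ^ 2 = ∑ i ∈ B, ρ.1 i := by
        rw [← h2]
        exact sum_congr rfl fun i _ => by ring
      rw [h3]
      calc ∑ i ∈ B, ρ.1 i ≤ ∑ i ∈ B, m := sum_le_sum fun i _ =>
            (le_abs_self _).trans (hi₀ i (mem_univ i))
        _ = _ := by rw [sum_const, nsmul_eq_mul]
    have h2 := hmass ρ.1 ρ.2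
    have h3 : ∑ i ∈ B, ρ.1 i ^ 2 + ∑ i ∈ Bᶜ, ρ.1 i ^ 2 = ∑ i, ρ.1 i ^ 2 := sum_add_sum_compl B _
    have h4 : 0 ≤ ∑ i, ρ.1 i ^ 2 := sum_nonneg fun _ _ => sq_nonneg _
    have h5 : ∑ i, ρ.1 i ^ 2 ≤ 2 * (B.card * m) := by nlinarith
    have h6 := sup_LL N Q hN hQ hd ρ.1 ρ.2 i₀
    have h7 : ρ.1 i₀ ^ 2 = m ^ 2 := by rw [hm, sq_abs]
    rw [h7] at h6
    have h8 : N * m ^ 2 ≤ 2 * t * N * m := by
      calc N * m ^ 2 ≤ (Q : ℝ) ^ 4 * (2 * (B.card * m)) := h6.trans (by gcongr)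
        _ = 2 * m * (B.card * (Q : ℝ) ^ 4) := by ring
        _ ≤ 2 * m * (t * N) := by gcongr
        _ = _ := by ring
    have h9 : m ≤ 2 * t := by
      by_contra hcon
      rw [not_le] at hcon
      have hmpos : 0 < m := lt_of_le_of_lt (by linarith) hcon
      have : 2 * t * N * m < N * m ^ 2 := by
        have h10 : 0 < N * m * (m - 2 * t) := by
          apply mul_pos (mul_pos hNr hmpos)
          linarith
        nlinarith
      linarith
    intro i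
    exact (hi₀ i (mem_univ i)).trans h9
  · intro g hg
    have h1 := hρg ⟨g, hg⟩
    simp only at h1
    have h2 : ∑ i ∈ Bᶜ, (1 + ρ.1 i) * g i = ∑ i ∈ Bᶜ, g i + ∑ i ∈ Bᶜ, ρ.1 i * g i := by
      rw [← sum_add_distrib]
      exact sum_congr rfl fun i _ => by ring
    rw [h2, h1, add_comm]
    exact sum_add_sum_compl B _

end Pool.Agent.R526.LPB
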